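import Mathlib

set_option autoImplicit false

namespace Pool.Agent.Results.MP_e83726_nt.Yes

open Finset

/-- `H(n) = ∏_{p ∣ n} p/(p-1)` -/
noncomputable def H (n : ℕ) : ℝ := ∏ p ∈ n.primeFactors, (p : ℝ) / (p - 1)

/-- `g(n) = (H(n) - 2) √n` -/
noncomputable def g (n : ℕ) : ℝ := (H n - 2) * √(n : ℝ)

/-- odd and non-deficient -/
def OND (n : ℕ) : Prop := Odd n ∧ 2 * n ≤ ∑ d ∈ n.divisors, d

/-- odd non-deficient record setters for `g` -/
def B1 (n : ℕ) : Prop := OND n ∧ ∀ k < n, OND k → g k < g n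

theorem ond_mul {a b : ℕ} (ha : 2 * a ≤ ∑ d ∈ a.divisors, d) (h0 : a * b ≠ 0) :
    2 * (a * b) ≤ ∑ d ∈ (a * b).divisors, d := by
  have hb : b ≠ 0 := right_ne_zero_of_mul h0
  calc 2 * (a * b) ≤ (∑ d ∈ a.divisors, d) * b := by rw [← mul_assoc]; gcongr
    _ = ∑ d ∈ a.divisors.image (· * b), d := by
        rw [sum_mul, sum_image fun x _ y _ h => mul_right_cancel₀ hb h]
    _ ≤ _ := by
        refine sum_le_sum_of_subset fun d hd => ?_
        obtain ⟨e, he, rfl⟩ := mem_image.1 hd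
        exact Nat.mem_divisors.2 ⟨mul_dvd_mul_right (Nat.dvd_of_mem_divisors he) b, h0⟩

theorem key (t : ℕ) (ht : 2 ≤ t) : ∃ P : ℕ, 15015 ≤ P ∧ 8 * t ^ 3 ≤ P ∧ OND P ∧
    ∀ n < P, Odd n → g n + √(P : ℝ) / (8 * t) ≤ g P := by
  set y := 8 * t with hy
  set B := ((range (y + 1)).filter Nat.Prime).erase 2 with hB
  have mB : ∀ p, p ∈ B ↔ p ≠ 2 ∧ p ≤ y ∧ p.Prime := by
    intro p; simp [hB]
  have hBp : ∀ p ∈ B, p.Prime := fun p hp => ((mB p).1 hp).2.2
  set P := ∏ p ∈ B, p with hP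
  have hP0 : P ≠ 0 := prod_ne_zero_iff.2 fun p hp => (hBp p hp).ne_zero
  have hodd : Odd P := prod_induction _ Odd (fun a b => Odd.mul) odd_one
    fun p hp => (hBp p hp).odd_of_ne_two ((mB p).1 hp).1
  have hsub : ({3, 5, 7, 11, 13} : Finset ℕ) ⊆ B := by
    intro p hp
    simp only [mem_insert, mem_singleton] at hp
    rw [mB]
    rcases hp with rfl | rfl | rfl | rfl | rfl <;> refine ⟨by norm_num, by omega, by norm_num⟩
  have hdvd : 15015 ∣ P := by
    have := prod_dvd_prod_of_subset _ _ (fun p : ℕ => p) hsub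
    simpa using this
  have hHP : H P = ∏ p ∈ B, (p : ℝ) / (p - 1) := by rw [H, Nat.primeFactors_prod hBp]
  have hy' : (16 : ℝ) ≤ y := by exact_mod_cast (by omega : 16 ≤ y)
  have f1 : ∀ p : ℕ, p.Prime → (1 : ℝ) ≤ (p : ℝ) / (p - 1) := by
    intro p hp
    have : (2 : ℝ) ≤ p := by exact_mod_cast hp.two_le
    rw [le_div_iff₀ (by linarith)]; linarith
  have hH : (26 / 10 : ℝ) ≤ H P := by
    rw [hHP, ← prod_sdiff hsub]
    have h1 : (1 : ℝ) ≤ ∏ p ∈ B \ {3, 5, 7, 11, 13}, (p : ℝ) / (p - 1) :=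
      one_le_prod fun p hp => f1 p (hBp p (mem_sdiff.1 hp).1)
    have h2 : (26 / 10 : ℝ) ≤ ∏ p ∈ ({3, 5, 7, 11, 13} : Finset ℕ), (p : ℝ) / (p - 1) := by
      norm_num
    nlinarith
  refine ⟨P, Nat.le_of_dvd (Nat.pos_of_ne_zero hP0) hdvd, ?_, ⟨hodd, ?_⟩, ?_⟩
  · obtain ⟨a, ha, a1, a2⟩ := Nat.exists_prime_lt_and_le_two_mul t (by omega)
    obtain ⟨b, hb, b1, b2⟩ := Nat.exists_prime_lt_and_le_two_mul (2 * t) (by omega)
    obtain ⟨c, hc, c1, c2⟩ := Nat.exists_prime_lt_and_le_two_mul (4 * t) (by omega)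
    have hs : ({a, b, c} : Finset ℕ) ⊆ B := by
      intro p hp
      simp only [mem_insert, mem_singleton] at hp
      rw [mB]
      rcases hp with rfl | rfl | rfl <;> exact ⟨by omega, by omega, by assumption⟩
    have := Nat.le_of_dvd (Nat.pos_of_ne_zero hP0) (prod_dvd_prod_of_subset _ _ (fun p : ℕ => p) hs)
    rw [prod_insert (by simp; omega), prod_insert (by simp; omega), prod_singleton] at this
    calc 8 * t ^ 3 = t * (2 * t * (4 * t)) := by ring
      _ ≤ a * (b * c) := by gcongr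
      _ ≤ P := this
  · obtain ⟨b, hb⟩ := hdvd
    rw [hb]
    exact ond_mul (by decide +kernel) (hb ▸ hP0)
  · intro n hn ho
    have hn0 : n ≠ 0 := by rintro rfl; simp at ho
    set A := n.primeFactors with hA
    have hAB : ∀ p ∈ A \ B, y < p := by
      intro p hp
      obtain ⟨h1, h2⟩ := mem_sdiff.1 hp
      by_contra h
      apply h2
      refine (mB p).2 ⟨?_, by omega, Nat.prime_of_mem_primeFactors h1⟩
      rintro rfl
      exact (Nat.not_even_iff_odd.2 ho) (even_iff_two_dvd.2 (Nat.dvd_of_mem_primeFactors h1))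
    have hcard : (A \ B).card + 1 ≤ (B \ A).card := by
      by_contra h
      have h1 : ∏ p ∈ B \ A, p ≤ y ^ (B \ A).card :=
        prod_le_pow_card _ _ _ fun p hp => ((mB p).1 (mem_sdiff.1 hp).1).2.1
      have h2 : y ^ (A \ B).card ≤ ∏ p ∈ A \ B, p :=
        pow_card_le_prod _ _ _ fun p hp => (hAB p hp).le
      have h3 : y ^ (B \ A).card ≤ y ^ (A \ B).card := Nat.pow_le_pow_right (by omega) (by omega)
      have h4 : P ≤ ∏ p ∈ A, p := by
        rw [hP, ← prod_inter_mul_prod_sdiff B A, ← prod_inter_mul_prod_sdiff A B, inter_comm]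
        exact Nat.mul_le_mul_left _ (h1.trans (h3.trans h2))
      have h5 := Nat.le_of_dvd (Nat.pos_of_ne_zero hn0) (Nat.prod_primeFactors_dvd n)
      exact absurd (h4.trans h5) (not_le.2 hn)
    have hr : (1 : ℝ) ≤ (y : ℝ) / (y - 1) := by rw [le_div_iff₀ (by linarith)]; linarith
    have g1 : ∏ p ∈ A \ B, (p : ℝ) / (p - 1) ≤ ((y : ℝ) / (y - 1)) ^ (A \ B).card := by
      rw [← prod_const]
      refine prod_le_prod (fun p hp => zero_le_one.trans
        (f1 p (Nat.prime_of_mem_primeFactors (mem_sdiff.1 hp).1))) fun p hp => ?_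
      have : (y : ℝ) < p := by exact_mod_cast hAB p hp
      rw [div_le_div_iff₀ (by linarith) (by linarith)]; nlinarith
    have g2 : ((y : ℝ) / (y - 1)) ^ (B \ A).card ≤ ∏ p ∈ B \ A, (p : ℝ) / (p - 1) := by
      rw [← prod_const]
      refine prod_le_prod (fun p hp => zero_le_one.trans hr) fun p hp => ?_
      have h1 : (p : ℝ) ≤ y := by exact_mod_cast ((mB p).1 (mem_sdiff.1 hp).1).2.1
      have h2 : (2 : ℝ) ≤ p := by exact_mod_cast (hBp p (mem_sdiff.1 hp).1).two_le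
      rw [div_le_div_iff₀ (by linarith) (by linarith)]; nlinarith
    have g3 : H n * ((y : ℝ) / (y - 1)) ≤ H P := by
      rw [hHP, H, ← hA, ← prod_inter_mul_prod_sdiff B A, ← prod_inter_mul_prod_sdiff A B,
        inter_comm, mul_assoc]
      refine mul_le_mul_of_nonneg_left ?_ (prod_nonneg fun p hp =>
        zero_le_one.trans (f1 p (hBp p (mem_inter.1 hp).1)))
      calc _ ≤ ((y : ℝ) / (y - 1)) ^ (A \ B).card * ((y : ℝ) / (y - 1)) := by gcongr
        _ = ((y : ℝ) / (y - 1)) ^ ((A \ B).card + 1) := by rw [pow_succ]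
        _ ≤ ((y : ℝ) / (y - 1)) ^ (B \ A).card := pow_le_pow_right₀ hr hcard
        _ ≤ _ := g2
    have g4 : H n ≤ H P - H P / y := by
      rw [← mul_div_assoc, div_le_iff₀ (by linarith)] at g3
      have : H P - H P / y = H P * (y - 1) / y := by field_simp
      rw [this, le_div_iff₀ (by linarith)]; exact g3
    have g5 : H P / y ≤ H P / 16 := by gcongr
    have g6 : 1 / (y : ℝ) ≤ H P / y := by gcongr; linarith
    have s1 : √(n : ℝ) ≤ √(P : ℝ) := Real.sqrt_le_sqrt (by exact_mod_cast hn.le)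
    have s0 : 0 ≤ √(n : ℝ) := Real.sqrt_nonneg _
    have e : √(P : ℝ) / (8 * t) = √(P : ℝ) * (1 / y) := by rw [hy]; push_cast; ring
    rw [e, g, g]
    have c0 : 0 ≤ H P - H P / y - 2 := by linarith
    nlinarith [mul_le_mul_of_nonneg_left s1 c0, mul_le_mul_of_nonneg_right g4 s0,
      mul_le_mul_of_nonneg_left g6 (s0.trans s1)]

/-- The gaps between consecutive record values of `g` along `B₁` are unbounded. -/
theorem result (M : ℝ) : ∃ j : ℕ, Nat.nth B1 j < Nat.nth B1 (j + 1) ∧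
    M < g (Nat.nth B1 (j + 1)) - g (Nat.nth B1 j) := by
  classical
  obtain ⟨t, ht⟩ := exists_nat_gt (8 * M ^ 2 + 2)
  have ht2 : 2 ≤ t := by
    have : (2 : ℝ) ≤ t := by nlinarith [sq_nonneg M]
    exact_mod_cast this
  obtain ⟨P, h1, h2, h3, h4⟩ := key t ht2
  have ht0 : (0 : ℝ) < t := by positivity
  have hM : M < √(P : ℝ) / (8 * t) := by
    rw [lt_div_iff₀ (by positivity)]
    apply Real.lt_sqrt_of_sq_lt
    have : ((8 * t ^ 3 : ℕ) : ℝ) ≤ P := by exact_mod_cast h2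
    push_cast at this
    nlinarith [sq_pos_of_pos ht0]
  have hpos : 0 < √(P : ℝ) / (8 * t) := by
    have : (0 : ℝ) < P := by exact_mod_cast (by omega : 0 < P)
    positivity
  have hB : B1 P := ⟨h3, fun k hk hk' => by linarith [h4 k hk hk'.1]⟩
  have h945 : OND 945 := ⟨by decide, by decide +kernel⟩
  have hex : ∃ n, OND n := ⟨945, h945⟩
  have hB0 : B1 (Nat.find hex) :=
    ⟨Nat.find_spec hex, fun k hk hk' => absurd hk' (Nat.find_min hex hk)⟩
  have hlt : Nat.find hex < P := lt_of_le_of_lt (Nat.find_min' hex h945) (by omega)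
  have hc : 0 < Nat.count B1 P := by
    rw [Nat.pos_iff_ne_zero, Ne, Nat.count_iff_forall_not]
    exact fun h => h _ hlt hB0
  obtain ⟨j, hj⟩ : ∃ j, Nat.count B1 P = j + 1 := ⟨_, (Nat.succ_pred_eq_of_pos hc).symm⟩
  have e1 : Nat.nth B1 (j + 1) = P := by rw [← hj, Nat.nth_count hB]
  have e2 : Nat.nth B1 j < P := Nat.nth_lt_of_lt_count (by omega)
  have e3 : B1 (Nat.nth B1 j) := Nat.nth_mem j fun hf =>
    lt_of_lt_of_le (by omega : j < Nat.count B1 P) (Nat.count_le_card hf P)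
  refine ⟨j, e1 ▸ e2, ?_⟩
  rw [e1]
  linarith [h4 _ e2 e3.1.1]

end Pool.Agent.Results.MP_e83726_nt.Yes
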